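import Mathlib

set_option autoImplicit false

/-!
Finite graph lemmas: a graph without complete subgraphs on four vertices on two copies of a set.
-/

namespace Pool.Agent.H35_SD

open Finset

open Classical in
/-- the number of the pairs with the property `p` -/
noncomputable def cnt {ι : Type} [Fintype ι] (p : ι → ι → Prop) : ℕ :=
  ((univ : Finset (ι × ι)).filter (fun q => p q.1 q.2)).card

theorem cnt_eq {ι : Type} [Fintype ι] {p : ι → ι → Prop} (s : Finset (ι × ι)) (h : ∀ q : ι × ι, q ∈ s ↔ p q.1 q.2) :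
    cnt p = s.card := by
  unfold cnt
  congr 1
  ext q
  simp [h]

theorem le_cnt {ι : Type} [Fintype ι] {p : ι → ι → Prop} (s : Finset (ι × ι)) (h : ∀ q ∈ s, p q.1 q.2) :
    s.card ≤ cnt p := by
  unfold cnt
  apply card_le_card
  intro q hq
  simp [h q hq]

theorem cnt_le {ι : Type} [Fintype ι] {p : ι → ι → Prop} (s : Finset (ι × ι)) (h : ∀ q : ι × ι, p q.1 q.2 → q ∈ s) :
    cnt p ≤ s.card := by
  unfold cnt
  apply card_le_card
  intro q hq
  simp only [mem_filter, mem_univ, true_and] at hq
  exact h q hq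

theorem cnt_mono {ι : Type} [Fintype ι] {p q : ι → ι → Prop} (h : ∀ i j, p i j → q i j) : cnt p ≤ cnt q := by
  unfold cnt
  apply card_le_card
  intro x hx
  simp only [mem_filter, mem_univ, true_and] at hx ⊢
  exact h _ _ hx

/-- Turán's theorem for four vertices, non-adjacent ordered pairs -/
theorem turan {ι : Type} [Fintype ι] (a : ι → ι → Prop) (hs : ∀ i j, a i j → a j i) (hi : ∀ i, ¬ a i i)
    (h4 : ∀ q : Fin 4 → ι, ¬ ∀ g g', g ≠ g' → a (q g) (q g')) :
    Fintype.card ι ^ 2 ≤ 3 * cnt (fun i j => ¬ a i j) := by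
  classical
  set H : SimpleGraph ι :=
    { Adj := a
      symm := ⟨fun i j h => hs i j h⟩
      loopless := ⟨fun i h => hi i h⟩ } with hH
  have hfree : H.CliqueFree (3 + 1) := by
    intro t ht
    rw [SimpleGraph.isNClique_iff] at ht
    obtain ⟨hcl, hcard⟩ := ht
    have e := t.equivFinOfCardEq hcard
    apply h4 (fun g => ((e.symm g : t) : ι))
    intro g g' hgg
    exact hcl (e.symm g).2 (e.symm g').2 (fun h => hgg (e.symm.injective (Subtype.ext h)))
  have h1 : H.edgeFinset.card ≤ (Fintype.card ι ^ 2 - (Fintype.card ι % 3) ^ 2) * (3 - 1) / (2 * 3) +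
      (Fintype.card ι % 3).choose 2 := hfree.card_edgeFinset_le
  have h2 : cnt a ≤ 2 * H.edgeFinset.card := by
    rw [← H.dart_card_eq_twice_card_edges]
    refine (cnt_le ((univ : Finset H.Dart).image (fun d => (d.fst, d.snd))) ?_).trans
      (card_image_le.trans (by rw [card_univ]))
    intro q hq
    rw [mem_image]
    exact ⟨⟨(q.1, q.2), hq⟩, mem_univ _, rfl⟩
  have h3 : cnt a + cnt (fun i j => ¬ a i j) = Fintype.card ι ^ 2 := by
    have h4 := Finset.card_filter_add_card_filter_not (s := (univ : Finset (ι × ι))) (fun q => a q.1 q.2)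
    rw [card_univ, Fintype.card_prod] at h4
    rw [sq, ← h4, cnt_eq (p := a) (univ.filter (fun q : ι × ι => a q.1 q.2)) (fun q => by simp),
      cnt_eq (p := fun i j => ¬ a i j) (univ.filter (fun q : ι × ι => ¬ a q.1 q.2)) (fun q => by simp)]
  have h4 : 3 * H.edgeFinset.card ≤ Fintype.card ι ^ 2 := by
    obtain ⟨m, hm, hm3⟩ : ∃ m, m = Fintype.card ι % 3 ∧ m < 3 := ⟨_, rfl, Nat.mod_lt _ (by norm_num)⟩
    rw [← hm] at h1
    have h5 : m ^ 2 ≤ Fintype.card ι ^ 2 := Nat.pow_le_pow_left (by rw [hm]; exact Nat.mod_le _ _) 2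
    have h6 := Nat.div_mul_le_self ((Fintype.card ι ^ 2 - m ^ 2) * (3 - 1)) (2 * 3)
    interval_cases m
    · simp at h1 h6
      omega
    · simp at h1 h6
      omega
    · simp at h1 h6
      omega
  omega

/-- Turán's theorem on a subset -/
theorem turan_on {ι : Type} [Fintype ι] [DecidableEq ι] (a : ι → ι → Prop) [DecidableRel a]
    (hs : ∀ i j, a i j → a j i) (hi : ∀ i, ¬ a i i)
    (h4 : ∀ q : Fin 4 → ι, ¬ ∀ g g', g ≠ g' → a (q g) (q g')) (C : Finset ι) :
    C.card ^ 2 ≤ 3 * ((C ×ˢ C).filter (fun q => ¬ a q.1 q.2)).card := by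
  classical
  have h := turan (ι := {x // x ∈ C}) (fun i j => a i j) (fun i j h => hs i j h) (fun i => hi i)
    (fun q hq => h4 (fun g => (q g : ι)) hq)
  rw [Fintype.card_coe] at h
  refine h.trans (Nat.mul_le_mul_left _ ?_)
  rw [cnt_eq (univ.filter (fun q : {x // x ∈ C} × {x // x ∈ C} => ¬ a q.1 q.2)) (fun q => by simp)]
  refine Finset.card_le_card_of_injOn (fun q => ((q.1 : ι), (q.2 : ι))) ?_ ?_
  · intro q hq
    rw [mem_coe, mem_filter] at hq ⊢
    exact ⟨mem_product.2 ⟨q.1.2, q.2.2⟩, hq.2⟩
  · intro q _ q' _ hqq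
    simp only [Prod.mk.injEq] at hqq
    exact Prod.ext (Subtype.ext hqq.1) (Subtype.ext hqq.2)

/-- the two layers -/
theorem layer (l c z n : ℕ) (d : ℝ) (hn : l + c + z = n) (hd : (l : ℝ) ^ 2 + 2 * (l * c) + c ^ 2 / 3 ≤ d) :
    2 * ((n : ℝ) - Real.sqrt d) ≤ (c : ℝ) + z + z := by
  have h1 : (l : ℝ) + c / 2 ≤ Real.sqrt d := by
    apply Real.le_sqrt_of_sq_le
    have hl : (0 : ℝ) ≤ l := Nat.cast_nonneg l
    have hc : (0 : ℝ) ≤ c := Nat.cast_nonneg c
    nlinarith [mul_nonneg hl hc, sq_nonneg (c : ℝ)]
  have h2 : (n : ℝ) = l + c + z := by exact_mod_cast hn.symm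
  linarith

open Classical in
/-- **the finite inequality**: `r` has no four pairwise related elements, and of any two related pairs `i i'`,
`j j'` one of the four mixed pairs is in `G` -/
theorem finite_sqrt {ι : Type} [Fintype ι] (r G : ι → ι → Prop) (hs : ∀ i j, r i j → r j i)
    (hi : ∀ i, ¬ r i i) (h4 : ∀ q : Fin 4 → ι, ¬ ∀ g g', g ≠ g' → r (q g) (q g'))
    (hG : ∀ i i' j j', r i i' → r j j' → G i j ∨ G i j' ∨ G i' j ∨ G i' j') :
    (Fintype.card ι : ℝ) - Real.sqrt (cnt (fun i j => ¬ r i j)) ≤ Real.sqrt (cnt G) := by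
  set n := Fintype.card ι with hn
  set d : ℕ := cnt (fun i j => ¬ r i j) with hd
  set u : ℝ := (n : ℝ) - Real.sqrt d with hu
  -- a largest independent set
  obtain ⟨I, hI1, hI2⟩ : ∃ I : Finset ι, (∀ i ∈ I, ∀ j ∈ I, ¬ r i j) ∧
      ∀ J : Finset ι, (∀ i ∈ J, ∀ j ∈ J, ¬ r i j) → J.card ≤ I.card := by
    obtain ⟨I, hI, hmax⟩ := Finset.exists_max_image
      ((univ : Finset (Finset ι)).filter (fun I => ∀ i ∈ I, ∀ j ∈ I, ¬ r i j)) Finset.card
      ⟨∅, mem_filter.2 ⟨mem_univ _, fun i hi => absurd hi (notMem_empty i)⟩⟩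
    exact ⟨I, (mem_filter.1 hI).2, fun J hJ => hmax J (mem_filter.2 ⟨mem_univ _, hJ⟩)⟩
  have hIn : I.card ≤ n := by rw [hn]; exact card_le_univ I
  obtain ⟨τ, hτ⟩ : ∃ τ : ℕ, τ + I.card = n := ⟨n - I.card, by omega⟩
  have hId : (I.card : ℝ) ≤ Real.sqrt d := by
    apply Real.le_sqrt_of_sq_le
    have h1 : I.card ^ 2 ≤ d := by
      rw [hd, sq, ← card_product]
      apply le_cnt
      intro q hq
      rw [mem_product] at hq
      exact hI1 _ hq.1 _ hq.2
    exact_mod_cast h1
  have hτu : u ≤ (τ : ℝ) := by
    have : (n : ℝ) = τ + I.card := by exact_mod_cast hτ.symm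
    linarith
  -- the columns
  set g : ι → ℕ := fun j => ((univ : Finset ι).filter (fun i => G i j)).card with hg
  have hgr : ∀ j j', r j j' → τ ≤ g j + g j' := by
    intro j j' hjj
    have h1 : ((univ : Finset ι).filter (fun i => ¬ (G i j ∨ G i j'))).card ≤ I.card := by
      apply hI2
      intro i hi1 i' hi2 hii
      have h2 := (mem_filter.1 hi1).2
      have h3 := (mem_filter.1 hi2).2
      have := hG i i' j j' hii hjj
      tauto
    have h2 := Finset.card_filter_add_card_filter_not (s := (univ : Finset ι)) (fun i => G i j ∨ G i j')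
    rw [card_univ, ← hn] at h2
    have h3 : ((univ : Finset ι).filter (fun i => G i j ∨ G i j')).card ≤ g j + g j' := by
      rw [filter_or]
      exact card_union_le _ _
    omega
  -- the level sets
  set N : ℕ → ℕ := fun θ => ((univ : Finset ι).filter (fun j => θ < g j)).card with hN
  have hcntG : cnt G = ∑ j, g j := by
    rw [cnt_eq (univ.filter (fun q : ι × ι => G q.1 q.2)) (fun q => by simp), card_filter,
      Fintype.sum_prod_type_right]
    refine sum_congr rfl fun j _ => ?_
    show _ = ((univ : Finset ι).filter (fun i => G i j)).card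
    rw [card_filter]
  have hlc : ∑ θ ∈ range τ, N θ ≤ ∑ j, g j := by
    have h1 : ∑ θ ∈ range τ, N θ = ∑ j, ((range τ).filter (fun θ => θ < g j)).card := by
      simp only [hN, card_filter]
      rw [Finset.sum_comm]
    rw [h1]
    refine sum_le_sum fun j _ => ?_
    calc ((range τ).filter (fun θ => θ < g j)).card ≤ (range (g j)).card := by
          apply card_le_card
          intro θ hθ
          rw [mem_range]
          exact (mem_filter.1 hθ).2
      _ = g j := card_range _
  have key : ∀ θ : ℕ, 2 * θ < τ → 2 * u ≤ (N θ : ℝ) + N (τ - 1 - θ) := by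
    intro θ hθ
    set L := (univ : Finset ι).filter (fun j => g j ≤ θ) with hL
    set C := (univ : Finset ι).filter (fun j => θ < g j ∧ g j ≤ τ - 1 - θ) with hC
    set Z := (univ : Finset ι).filter (fun j => τ - 1 - θ < g j) with hZ
    have hsum : L.card + C.card + Z.card = n := by
      have h1 := Finset.card_filter_add_card_filter_not (s := (univ : Finset ι)) (fun j => g j ≤ θ)
      have h2 := Finset.card_filter_add_card_filter_not
        (s := (univ : Finset ι).filter (fun j => ¬ g j ≤ θ)) (fun j => g j ≤ τ - 1 - θ)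
      rw [filter_filter, filter_filter] at h2
      rw [card_univ, ← hn] at h1
      have h3 : C = (univ : Finset ι).filter (fun j => ¬ g j ≤ θ ∧ g j ≤ τ - 1 - θ) := by
        rw [hC]; congr 1; ext j; rw [not_le]
      have h4 : Z = (univ : Finset ι).filter (fun j => ¬ g j ≤ θ ∧ ¬ g j ≤ τ - 1 - θ) := by
        rw [hZ]
        ext j
        simp only [mem_filter, mem_univ, true_and]
        omega
      rw [h3, h4, hL]
      omega
    have hNθ : N θ = C.card + Z.card := by
      rw [hN]
      simp only
      rw [← card_union_of_disjoint]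
      · congr 1
        ext j
        simp only [hC, hZ, mem_union, mem_filter, mem_univ, true_and]
        omega
      · rw [Finset.disjoint_left]
        intro j h1 h2
        rw [hC, mem_filter] at h1
        rw [hZ, mem_filter] at h2
        omega
    have hNτ : N (τ - 1 - θ) = Z.card := rfl
    -- non-adjacent pairs
    have hnon : L.card ^ 2 + 2 * (L.card * C.card) + ((C ×ˢ C).filter (fun q => ¬ r q.1 q.2)).card ≤ d := by
      have h2 : (L ×ˢ L ∪ (L ×ˢ C ∪ C ×ˢ L) ∪ (C ×ˢ C).filter (fun q => ¬ r q.1 q.2)).card ≤ d := by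
        rw [hd]
        apply le_cnt
        intro q hq hr
        have h2 := hgr _ _ hr
        simp only [mem_union, mem_product, mem_filter, hL, hC, mem_univ, true_and] at hq
        rcases hq with (h3 | h3 | h3) | h3
        · omega
        · omega
        · omega
        · exact h3.2 hr
      have hLC : ∀ j, j ∈ L → j ∈ C → False := by
        intro j h3 h4
        rw [hL, mem_filter] at h3
        rw [hC, mem_filter] at h4
        omega
      rw [card_union_of_disjoint, card_union_of_disjoint, card_union_of_disjoint, card_product, card_product,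
        card_product] at h2
      · have h3 : C.card * L.card = L.card * C.card := Nat.mul_comm _ _
        rw [sq]
        omega
      · rw [Finset.disjoint_left]
        intro q h3 h4
        rw [mem_product] at h3 h4
        exact hLC _ h3.1 h4.1
      · rw [Finset.disjoint_left]
        intro q h3 h4
        rw [mem_product] at h3
        rw [mem_union, mem_product, mem_product] at h4
        rcases h4 with h4 | h4
        · exact hLC _ h3.2 h4.2
        · exact hLC _ h3.1 h4.1
      · rw [Finset.disjoint_left]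
        intro q h3 h4
        rw [mem_filter, mem_product] at h4
        rw [mem_union, mem_union, mem_product, mem_product, mem_product] at h3
        rcases h3 with h3 | h3 | h3
        · exact hLC _ h3.1 h4.1.1
        · exact hLC _ h3.1 h4.1.1
        · exact hLC _ h3.2 h4.1.2
    have htur := turan_on r hs hi h4 C
    have h5 := layer L.card C.card Z.card n d hsum (by
      have h6 : ((C.card ^ 2 : ℕ) : ℝ) ≤ ((3 * ((C ×ˢ C).filter (fun q => ¬ r q.1 q.2)).card : ℕ) : ℝ) :=
        Nat.cast_le.2 htur
      have h7 : ((L.card ^ 2 + 2 * (L.card * C.card) +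
        ((C ×ˢ C).filter (fun q => ¬ r q.1 q.2)).card : ℕ) : ℝ) ≤ (d : ℝ) := Nat.cast_le.2 hnon
      push_cast at h6 h7
      linarith)
    rw [hNθ, hNτ, hu]
    push_cast
    exact h5
  have hall : ∀ θ ∈ range τ, 2 * u ≤ (N θ : ℝ) + N (τ - 1 - θ) := by
    intro θ hθ
    rw [mem_range] at hθ
    rcases Nat.lt_or_ge (2 * θ) τ with h | h
    · exact key θ h
    · have h1 := key (τ - 1 - θ) (by omega)
      have h2 : τ - 1 - (τ - 1 - θ) = θ := by omega
      rw [h2] at h1
      linarith
  have hfin : (τ : ℝ) * u ≤ cnt G := by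
    have h1 := Finset.sum_le_sum hall
    rw [sum_const, card_range, nsmul_eq_mul, sum_add_distrib] at h1
    have h2 : ∑ θ ∈ range τ, (N (τ - 1 - θ) : ℝ) = ∑ θ ∈ range τ, (N θ : ℝ) :=
      Finset.sum_range_reflect (fun θ => (N θ : ℝ)) τ
    rw [h2] at h1
    have h3 : ((∑ θ ∈ range τ, N θ : ℕ) : ℝ) ≤ ((∑ j, g j : ℕ) : ℝ) := Nat.cast_le.2 hlc
    rw [← hcntG] at h3
    push_cast at h3
    linarith
  rcases le_or_gt u 0 with hu0 | hu0
  · exact hu0.trans (Real.sqrt_nonneg _)
  · apply Real.le_sqrt_of_sq_le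
    calc u ^ 2 = u * u := sq u
      _ ≤ τ * u := mul_le_mul_of_nonneg_right hτu hu0.le
      _ ≤ _ := hfin

/-- **both inequalities** for two copies of a set -/
theorem two_copies {ι : Type} [Fintype ι] (a : Bool × ι → Bool × ι → Prop) (hs : ∀ p q, a p q → a q p)
    (hi : ∀ b b' i, ¬ a (b, i) (b', i)) (h4 : ∀ q : Fin 4 → Bool × ι, ¬ ∀ g g', g ≠ g' → a (q g) (q g')) :
    (Fintype.card ι : ℝ) ≤ Real.sqrt (cnt (fun i j : ι => ¬ (a (true, i) (true, j) ∧ a (false, i) (false, j)))) +
        Real.sqrt (cnt (fun i j : ι => ¬ a (true, i) (false, j))) ∧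
      2 * (Fintype.card ι : ℝ) ^ 2 ≤ 3 *
        ((cnt (fun i j : ι => ¬ (a (true, i) (true, j) ∧ a (false, i) (false, j))) : ℝ) +
          cnt (fun i j : ι => ¬ a (true, i) (false, j))) := by
  classical
  constructor
  · have h := finite_sqrt (fun i j : ι => a (true, i) (true, j) ∧ a (false, i) (false, j))
      (fun i j => ¬ a (true, i) (false, j)) (fun i j h => ⟨hs _ _ h.1, hs _ _ h.2⟩) (fun i h => hi _ _ i h.1)
      (fun q hq => h4 (fun g => (true, q g)) (fun g g' hgg => (hq g g' hgg).1)) (by
        intro i i' j j' h1 h2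
        by_contra hcon
        push Not at hcon
        obtain ⟨h3, h5, h6, h7⟩ := hcon
        apply h4 ![(true, i), (true, i'), (false, j), (false, j')]
        intro g g' hgg
        fin_cases g <;> fin_cases g' <;>
          first
          | exact absurd rfl hgg
          | exact h1.1
          | exact hs _ _ h1.1
          | exact h2.2
          | exact hs _ _ h2.2
          | exact h3
          | exact hs _ _ h3
          | exact h5
          | exact hs _ _ h5
          | exact h6
          | exact hs _ _ h6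
          | exact h7
          | exact hs _ _ h7)
    linarith
  · have h := turan a hs (fun p => hi p.1 p.1 p.2) h4
    have h1 : cnt (fun p q : Bool × ι => ¬ a p q) ≤
        2 * cnt (fun i j : ι => ¬ (a (true, i) (true, j) ∧ a (false, i) (false, j))) +
        2 * cnt (fun i j : ι => ¬ a (true, i) (false, j)) := by
      have hsub : ∀ b b' : Bool, ((univ : Finset ((Bool × ι) × (Bool × ι))).filter
          (fun q => (¬ a q.1 q.2) ∧ q.1.1 = b ∧ q.2.1 = b')).card ≤
          cnt (fun i j : ι => ¬ a (b, i) (b', j)) := by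
        intro b b'
        rw [cnt_eq (p := fun i j : ι => ¬ a (b, i) (b', j)) (univ.filter (fun q : ι × ι => ¬ a (b, q.1) (b', q.2)))
          (fun q => by simp)]
        refine Finset.card_le_card_of_injOn (fun q => (q.1.2, q.2.2)) ?_ ?_
        · intro q hq
          rw [mem_coe, mem_filter] at hq ⊢
          obtain ⟨-, h2, h3, h5⟩ := hq
          refine ⟨mem_univ _, ?_⟩
          rw [← h3, ← h5]
          exact h2
        · intro q hq q' hq' hqq
          rw [mem_coe, mem_filter] at hq hq'
          obtain ⟨-, -, h3, h5⟩ := hq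
          obtain ⟨-, -, h3', h5'⟩ := hq'
          simp only [Prod.mk.injEq] at hqq
          exact Prod.ext (Prod.ext (h3.trans h3'.symm) hqq.1) (Prod.ext (h5.trans h5'.symm) hqq.2)
      have hcov : (univ : Finset ((Bool × ι) × (Bool × ι))).filter (fun q => ¬ a q.1 q.2) ⊆
          (univ : Finset (Bool × Bool)).biUnion (fun s => (univ : Finset ((Bool × ι) × (Bool × ι))).filter
            (fun q => (¬ a q.1 q.2) ∧ q.1.1 = s.1 ∧ q.2.1 = s.2)) := by
        intro q hq
        rw [mem_biUnion]
        exact ⟨(q.1.1, q.2.1), mem_univ _, mem_filter.2 ⟨mem_univ _, (mem_filter.1 hq).2, rfl, rfl⟩⟩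
      have hswap : cnt (fun i j : ι => ¬ a (false, i) (true, j)) ≤ cnt (fun i j : ι => ¬ a (true, i) (false, j)) := by
        rw [cnt_eq (p := fun i j : ι => ¬ a (false, i) (true, j))
          (univ.filter (fun q : ι × ι => ¬ a (false, q.1) (true, q.2))) (fun q => by simp),
          cnt_eq (p := fun i j : ι => ¬ a (true, i) (false, j))
          (univ.filter (fun q : ι × ι => ¬ a (true, q.1) (false, q.2))) (fun q => by simp)]
        refine Finset.card_le_card_of_injOn (fun q => (q.2, q.1)) ?_ ?_
        · intro q hq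
          rw [mem_coe, mem_filter] at hq ⊢
          exact ⟨mem_univ _, fun h => hq.2 (hs _ _ h)⟩
        · intro q _ q' _ hqq
          simp only [Prod.mk.injEq] at hqq
          exact Prod.ext hqq.2 hqq.1
      have h2 := (card_le_card hcov).trans card_biUnion_le
      rw [Fintype.sum_prod_type] at h2
      simp only [Fintype.sum_bool] at h2
      have h3 := hsub true true
      have h5 := hsub true false
      have h6 := hsub false true
      have h7 := hsub false false
      have h8 : cnt (fun i j : ι => ¬ a (true, i) (true, j)) ≤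
          cnt (fun i j : ι => ¬ (a (true, i) (true, j) ∧ a (false, i) (false, j))) :=
        cnt_mono fun i j h h' => h h'.1
      have h9 : cnt (fun i j : ι => ¬ a (false, i) (false, j)) ≤
          cnt (fun i j : ι => ¬ (a (true, i) (true, j) ∧ a (false, i) (false, j))) :=
        cnt_mono fun i j h h' => h h'.2
      have h10 : cnt (fun p q : Bool × ι => ¬ a p q) =
        ((univ : Finset ((Bool × ι) × (Bool × ι))).filter (fun q => ¬ a q.1 q.2)).card :=
        cnt_eq _ (fun q => by simp)
      omega
    rw [Fintype.card_prod, Fintype.card_bool] at h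
    have h2 : (2 * Fintype.card ι) ^ 2 ≤ 3 * (2 * cnt (fun i j : ι => ¬ (a (true, i) (true, j) ∧
        a (false, i) (false, j))) + 2 * cnt (fun i j : ι => ¬ a (true, i) (false, j))) :=
      h.trans (Nat.mul_le_mul_left _ h1)
    have h3 : (((2 * Fintype.card ι) ^ 2 : ℕ) : ℝ) ≤ ((3 * (2 * cnt (fun i j : ι => ¬ (a (true, i) (true, j) ∧
        a (false, i) (false, j))) + 2 * cnt (fun i j : ι => ¬ a (true, i) (false, j))) : ℕ) : ℝ) :=
      Nat.cast_le.2 h2
    push_cast at h3
    nlinarith

end Pool.Agent.H35_SD
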