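import Mathlib
import Pool.Agent.H35_SD.Fin4
import Pool.Agent.H362R2.CM.Box

set_option autoImplicit false

/-!
Sampling: the inequalities for two copies of a large set from the property of four large classes.
-/

namespace Pool.Agent.H35_SD

open Finset

open Classical in
/-- number of functions with prescribed values on the range of an injection (as in `H362R2.CM.Dens`) -/
theorem card_fiber_le {I J α : Type} [Fintype I] [DecidableEq I] [Fintype J] (V : Finset α) (e : J → I)
    (he : Function.Injective e) (b : J → α) :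
    ((Fintype.piFinset (fun _ : I => V)).filter (fun f => (fun j => f (e j)) = b)).card ≤
      V.card ^ (Fintype.card I - Fintype.card J) := by
  have h1 : Fintype.card {i : I // i ∉ Set.range e} = Fintype.card I - Fintype.card J := by
    rw [Fintype.card_subtype_compl, ← Set.card_range_of_injective he]
  have h2 : (Fintype.piFinset (fun _ : {i : I // i ∉ Set.range e} => V)).card =
      V.card ^ (Fintype.card I - Fintype.card J) := by
    rw [Fintype.card_piFinset, Finset.prod_const, Finset.card_univ, h1]
  rw [← h2]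
  apply card_le_card_of_injOn (fun f i => f i.1)
  · intro f hf
    rw [mem_coe, mem_filter, Fintype.mem_piFinset] at hf
    rw [mem_coe, Fintype.mem_piFinset]
    intro i
    exact hf.1 i.1
  · intro f hf g hg hfg
    rw [mem_coe, mem_filter] at hf hg
    funext i
    by_cases hi : i ∈ Set.range e
    · obtain ⟨j, rfl⟩ := hi
      exact (congrFun hf.2 j).trans (congrFun hg.2 j).symm
    · exact congrFun hfg ⟨i, hi⟩

open Classical in
/-- number of functions whose pull back lies in a given set (as in `H362R2.CM.Dens`) -/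
theorem card_pull_le {I J α : Type} [Fintype I] [DecidableEq I] [Fintype J] (V : Finset α) (e : J → I)
    (he : Function.Injective e) (D : Finset (J → α)) :
    ((Fintype.piFinset (fun _ : I => V)).filter (fun f => (fun j => f (e j)) ∈ D)).card ≤
      D.card * V.card ^ (Fintype.card I - Fintype.card J) := by
  have h1 : (Fintype.piFinset (fun _ : I => V)).filter (fun f => (fun j => f (e j)) ∈ D) ⊆
      D.biUnion (fun b => (Fintype.piFinset (fun _ : I => V)).filter (fun f => (fun j => f (e j)) = b)) := by
    intro f hf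
    rw [mem_filter] at hf
    rw [mem_biUnion]
    exact ⟨_, hf.2, mem_filter.2 ⟨hf.1, rfl⟩⟩
  refine (card_le_card h1).trans (card_biUnion_le.trans ?_)
  calc ∑ b ∈ D, ((Fintype.piFinset (fun _ : I => V)).filter (fun f => (fun j => f (e j)) = b)).card
      ≤ ∑ _b ∈ D, V.card ^ (Fintype.card I - Fintype.card J) := sum_le_sum fun b _ => card_fiber_le V e he b
    _ = _ := by rw [sum_const, smul_eq_mul]

open Classical in
/-- the number of the pairs of elements of `V` with the property `p` -/
noncomputable def ec {α : Type} (V : Finset α) (p : α → α → Prop) : ℕ :=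
  ((V ×ˢ V).filter (fun q => p q.1 q.2)).card

open Classical in
/-- averages over all `T`-tuples -/
theorem avg {α : Type} {T : ℕ} (V : Finset α) (p : α → α → Prop)
    (Q : (Fin T → α) → Fin T → Fin T → Prop) (hQ : ∀ z i j, Q z i j → i = j ∨ p (z i) (z j)) :
    ∑ z ∈ Fintype.piFinset (fun _ : Fin T => V), cnt (Q z) ≤
      T * V.card ^ T + T ^ 2 * (ec V p * V.card ^ (T - 2)) := by
  have h1 : ∀ z ∈ Fintype.piFinset (fun _ : Fin T => V), cnt (Q z) ≤
      T + ∑ q : Fin T × Fin T, (if q.1 ≠ q.2 ∧ p (z q.1) (z q.2) then 1 else 0) := by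
    intro z _
    refine (cnt_le ((univ.image (fun i : Fin T => (i, i))) ∪
      univ.filter (fun q : Fin T × Fin T => q.1 ≠ q.2 ∧ p (z q.1) (z q.2))) ?_).trans ?_
    · intro q hq
      rw [mem_union, mem_image, mem_filter]
      by_cases h : q.1 = q.2
      · exact Or.inl ⟨q.1, mem_univ _, Prod.ext rfl h⟩
      · exact Or.inr ⟨mem_univ _, h, (hQ z _ _ hq).resolve_left h⟩
    · refine (card_union_le _ _).trans (Nat.add_le_add (card_image_le.trans ?_) ?_)
      · rw [card_univ, Fintype.card_fin]
      · rw [card_filter]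
  refine (sum_le_sum h1).trans ?_
  rw [sum_add_distrib, sum_const, Fintype.card_piFinset, prod_const, card_univ, Fintype.card_fin, smul_eq_mul,
    Nat.mul_comm (V.card ^ T) T, Finset.sum_comm]
  refine Nat.add_le_add_left ?_ _
  have h2 : ∀ q ∈ (univ : Finset (Fin T × Fin T)), ∑ z ∈ Fintype.piFinset (fun _ : Fin T => V),
      (if q.1 ≠ q.2 ∧ p (z q.1) (z q.2) then 1 else 0) ≤ ec V p * V.card ^ (T - 2) := by
    intro q _
    rw [← card_filter]
    by_cases hq : q.1 = q.2
    · have h3 : (Fintype.piFinset (fun _ : Fin T => V)).filter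
          (fun z => q.1 ≠ q.2 ∧ p (z q.1) (z q.2)) = ∅ := by
        apply filter_eq_empty_iff.2
        intro z _ h
        exact h.1 hq
      rw [h3, card_empty]
      exact Nat.zero_le _
    · have he : Function.Injective (![q.1, q.2] : Fin 2 → Fin T) := by
        intro a b hab
        fin_cases a <;> fin_cases b
        · rfl
        · exact absurd hab hq
        · exact absurd hab.symm hq
        · rfl
      have h3 := card_pull_le V (![q.1, q.2] : Fin 2 → Fin T) he
        ((Fintype.piFinset (fun _ : Fin 2 => V)).filter (fun y => p (y 0) (y 1)))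
      rw [Fintype.card_fin, Fintype.card_fin] at h3
      refine le_trans (card_le_card ?_) (h3.trans (Nat.mul_le_mul_right _ ?_))
      · intro z hz
        rw [mem_filter] at hz ⊢
        refine ⟨hz.1, mem_filter.2 ⟨?_, hz.2.2⟩⟩
        rw [Fintype.mem_piFinset] at hz ⊢
        intro j
        exact hz.1 _
      · unfold ec
        refine card_le_card_of_injOn (fun y => (y 0, y 1)) ?_ ?_
        · intro y hy
          rw [mem_coe, mem_filter, Fintype.mem_piFinset] at hy
          rw [mem_coe, mem_filter, mem_product]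
          exact ⟨⟨hy.1 0, hy.1 1⟩, hy.2⟩
        · intro y _ y' _ hyy
          simp only [Prod.mk.injEq] at hyy
          funext j
          fin_cases j
          · exact hyy.1
          · exact hyy.2
  refine (sum_le_sum h2).trans ?_
  rw [sum_const, card_univ, Fintype.card_prod, Fintype.card_fin, smul_eq_mul, sq]

open Classical in
/-- few tuples contain a complete subgraph on four vertices -/
theorem bad_few {α : Type} {T : ℕ} (hT : 4 ≤ T) (V : Finset α) (N : Bool × α → Bool × α → Prop) (ρ : ℝ)
    (hB : ∀ s : Fin 4 → Bool, (((Fintype.piFinset (fun _ : Fin 4 => V)).filter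
      (fun y => ∀ g g', g ≠ g' → N (s g, y g) (s g', y g'))).card : ℝ) ≤ ρ * (V.card : ℝ) ^ 4) :
    (((Fintype.piFinset (fun _ : Fin T => V)).filter (fun z => ∃ q : Fin 4 → Bool × Fin T, ∀ g g', g ≠ g' →
      (q g).2 ≠ (q g').2 ∧ N ((q g).1, z (q g).2) ((q g').1, z (q g').2))).card : ℝ) ≤
      16 * (T : ℝ) ^ 4 * ρ * (V.card : ℝ) ^ T := by
  set B : (Fin 4 → Bool) → Finset (Fin 4 → α) := fun s => (Fintype.piFinset (fun _ : Fin 4 => V)).filter
      (fun y => ∀ g g', g ≠ g' → N (s g, y g) (s g', y g')) with hBd
  have h1 : (Fintype.piFinset (fun _ : Fin T => V)).filter (fun z => ∃ q : Fin 4 → Bool × Fin T, ∀ g g', g ≠ g' →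
      (q g).2 ≠ (q g').2 ∧ N ((q g).1, z (q g).2) ((q g').1, z (q g').2)) ⊆
      (univ : Finset ((Fin 4 → Bool) × (Fin 4 → Fin T))).biUnion (fun w =>
        if Function.Injective w.2 then (Fintype.piFinset (fun _ : Fin T => V)).filter
          (fun z => (fun j => z (w.2 j)) ∈ B w.1) else ∅) := by
    intro z hz
    obtain ⟨hzV, q, hq⟩ := mem_filter.1 hz
    have hinj : Function.Injective (fun g => (q g).2) := by
      intro g g' hgg
      by_contra hne
      exact (hq g g' hne).1 hgg
    rw [mem_biUnion]
    refine ⟨(fun g => (q g).1, fun g => (q g).2), mem_univ _, ?_⟩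
    rw [if_pos hinj, mem_filter]
    refine ⟨hzV, ?_⟩
    rw [hBd, mem_filter, Fintype.mem_piFinset]
    rw [Fintype.mem_piFinset] at hzV
    exact ⟨fun g => hzV _, fun g g' hgg => (hq g g' hgg).2⟩
  have h2 : ∀ w ∈ (univ : Finset ((Fin 4 → Bool) × (Fin 4 → Fin T))),
      (((if Function.Injective w.2 then (Fintype.piFinset (fun _ : Fin T => V)).filter
          (fun z => (fun j => z (w.2 j)) ∈ B w.1) else ∅ : Finset (Fin T → α)).card : ℕ) : ℝ) ≤
        ρ * (V.card : ℝ) ^ T := by
    intro w _
    have hρ : 0 ≤ ρ * (V.card : ℝ) ^ 4 := (Nat.cast_nonneg _).trans (hB w.1)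
    have hpow : (V.card : ℝ) ^ T = (V.card : ℝ) ^ 4 * (V.card : ℝ) ^ (T - 4) := by
      rw [← pow_add]; congr 1; omega
    split_ifs with h
    · have h3 := card_pull_le V w.2 h (B w.1)
      rw [Fintype.card_fin, Fintype.card_fin] at h3
      have h4 : (((Fintype.piFinset (fun _ : Fin T => V)).filter
          (fun z => (fun j => z (w.2 j)) ∈ B w.1)).card : ℝ) ≤ ((B w.1).card : ℝ) * (V.card : ℝ) ^ (T - 4) := by
        exact_mod_cast h3
      refine h4.trans ?_
      rw [hpow, ← mul_assoc]
      exact mul_le_mul_of_nonneg_right (hB w.1) (by positivity)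
    · rw [card_empty, hpow, ← mul_assoc]
      push_cast
      positivity
  have h3 := (Nat.cast_le (α := ℝ)).2 ((card_le_card h1).trans card_biUnion_le)
  push_cast at h3
  refine h3.trans ((sum_le_sum h2).trans ?_)
  rw [sum_const, card_univ, Fintype.card_prod, Fintype.card_fun, Fintype.card_fun, Fintype.card_fin, Fintype.card_fin,
    Fintype.card_bool, nsmul_eq_mul]
  push_cast
  have : (2 : ℝ) ^ 4 * (T : ℝ) ^ 4 * (ρ * (V.card : ℝ) ^ T) = 16 * (T : ℝ) ^ 4 * ρ * (V.card : ℝ) ^ T := by ring
  linarith

end Pool.Agent.H35_SD
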