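import Mathlib
import Pool.Agent.H35_SD.Samp

set_option autoImplicit false

/-!
The combinatorial theorem: two copies of a large finite set, a symmetric relation `N` (not realised) without
complete four-partite subgraphs with parts of `K` elements.
-/

namespace Pool.Agent.H35_SD

open Finset

/-- Cauchy-Schwarz for square roots -/
theorem sum_sqrt_le {β : Type} (Φ : Finset β) (f : β → ℕ) (S : ℝ) (hS : (∑ z ∈ Φ, (f z : ℝ)) ≤ Φ.card * S)
    (hS0 : 0 ≤ S) : ∑ z ∈ Φ, Real.sqrt (f z) ≤ Φ.card * Real.sqrt S := by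
  have h1 : (∑ z ∈ Φ, Real.sqrt (f z)) ^ 2 ≤ Φ.card * ∑ z ∈ Φ, (Real.sqrt (f z)) ^ 2 :=
    sq_sum_le_card_mul_sum_sq
  have h2 : ∑ z ∈ Φ, (Real.sqrt (f z)) ^ 2 = ∑ z ∈ Φ, (f z : ℝ) :=
    sum_congr rfl fun z _ => Real.sq_sqrt (Nat.cast_nonneg _)
  rw [h2] at h1
  have h3 : (∑ z ∈ Φ, Real.sqrt (f z)) ^ 2 ≤ (Φ.card * Real.sqrt S) ^ 2 := by
    rw [mul_pow, Real.sq_sqrt hS0]
    calc (∑ z ∈ Φ, Real.sqrt (f z)) ^ 2 ≤ Φ.card * (Φ.card * S) :=
          h1.trans (mul_le_mul_of_nonneg_left hS (Nat.cast_nonneg _))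
      _ = (Φ.card : ℝ) ^ 2 * S := by ring
  exact le_of_sq_le_sq h3 (by positivity)

open Classical in
/-- **the combinatorial theorem** -/
theorem comb (K : ℕ) (ε : ℝ) (hε : 0 < ε) : ∃ n₀ : ℕ, ∀ (α : Type) (V : Finset α)
    (N : Bool × α → Bool × α → Prop), n₀ ≤ V.card → (∀ p q, N p q → N q p) →
    (∀ (s : Fin 4 → Bool) (A : Fin 4 → Fin K → α), (∀ g i, A g i ∈ V) → (∀ g, Function.Injective (A g)) →
      ¬ ∀ g g', g ≠ g' → ∀ i i', N (s g, A g i) (s g', A g' i')) →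
    1 - ε ≤ Real.sqrt ((ec V (fun u v => ¬ (N (true, u) (true, v) ∧ N (false, u) (false, v))) : ℝ) /
        (V.card : ℝ) ^ 2) + Real.sqrt ((ec V (fun u v => ¬ N (true, u) (false, v)) : ℝ) / (V.card : ℝ) ^ 2) ∧
      2 / 3 - ε ≤ (ec V (fun u v => ¬ (N (true, u) (true, v) ∧ N (false, u) (false, v))) : ℝ) /
        (V.card : ℝ) ^ 2 + (ec V (fun u v => ¬ N (true, u) (false, v)) : ℝ) / (V.card : ℝ) ^ 2 := by
  rcases le_or_gt ε 1 with hε1 | hε1
  swap
  · refine ⟨0, fun α V N _ _ _ => ⟨?_, ?_⟩⟩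
    · have h1 := Real.sqrt_nonneg ((ec V (fun u v => ¬ (N (true, u) (true, v) ∧ N (false, u) (false, v))) : ℝ) /
        (V.card : ℝ) ^ 2)
      have h2 := Real.sqrt_nonneg ((ec V (fun u v => ¬ N (true, u) (false, v)) : ℝ) / (V.card : ℝ) ^ 2)
      linarith
    · have h1 : 0 ≤ (ec V (fun u v => ¬ (N (true, u) (true, v) ∧ N (false, u) (false, v))) : ℝ) /
        (V.card : ℝ) ^ 2 := by positivity
      have h2 : 0 ≤ (ec V (fun u v => ¬ N (true, u) (false, v)) : ℝ) / (V.card : ℝ) ^ 2 := by positivity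
      linarith
  obtain ⟨T, hT⟩ : ∃ T : ℕ, T = ⌈64 / ε ^ 2⌉₊ + 4 := ⟨_, rfl⟩
  have hT4 : 4 ≤ T := by omega
  have hTε : 64 / ε ^ 2 ≤ T := by
    rw [hT]; push_cast
    have := Nat.le_ceil (64 / ε ^ 2)
    linarith
  have hT0 : (0 : ℝ) < T := by exact_mod_cast (by omega : 0 < T)
  have hTi : 1 / (T : ℝ) ≤ (ε / 8) ^ 2 := by
    rw [div_le_iff₀ hT0]
    rw [div_le_iff₀ (by positivity)] at hTε
    nlinarith
  obtain ⟨ρ, hρ⟩ : ∃ ρ : ℝ, ρ = ε / (64 * (T : ℝ) ^ 4) := ⟨_, rfl⟩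
  have hρ0 : 0 < ρ := by rw [hρ]; positivity
  obtain ⟨N0, hN0⟩ := Pool.Agent.H362R2.CM.box_lemma 4 K ρ hρ0
  refine ⟨max N0 1, fun α V N hV hsym hbox => ?_⟩
  have hVN : N0 ≤ V.card := (le_max_left _ _).trans hV
  have hV1 : 1 ≤ V.card := (le_max_right _ _).trans hV
  set n : ℝ := (V.card : ℝ) with hn
  have hn0 : 0 < n := by rw [hn]; exact_mod_cast hV1
  -- the bad quadruples are rare
  have hB : ∀ s : Fin 4 → Bool, (((Fintype.piFinset (fun _ : Fin 4 => V)).filter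
      (fun y => ∀ g g', g ≠ g' → N (s g, y g) (s g', y g'))).card : ℝ) ≤ ρ * (V.card : ℝ) ^ 4 := by
    intro s
    by_contra hcon
    push Not at hcon
    obtain ⟨A, hA1, hA2⟩ := hN0 α (fun _ => V) (fun _ => hVN) _ (filter_subset _ _) (by
      rw [prod_const, card_univ, Fintype.card_fin]
      exact hcon.le)
    refine hbox s A (fun g i => ?_) hA1 ?_
    · have h1 := (mem_filter.1 (hA2 (fun _ => i))).1
      rw [Fintype.mem_piFinset] at h1
      exact h1 g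
    · intro g g' hgg i i'
      have h1 := (mem_filter.1 (hA2 (Function.update (fun _ => i) g' i'))).2 g g' hgg
      simp only [Function.update_self, Function.update_of_ne hgg] at h1
      exact h1
  have hbad := bad_few hT4 V N ρ hB
  have hbadρ : 16 * (T : ℝ) ^ 4 * ρ * (V.card : ℝ) ^ T = ε / 4 * n ^ T := by
    rw [hρ, hn]; field_simp; ring
  rw [hbadρ] at hbad
  set Φ := Fintype.piFinset (fun _ : Fin T => V) with hΦ
  have hΦc : (Φ.card : ℝ) = n ^ T := by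
    rw [hΦ, Fintype.card_piFinset, prod_const, card_univ, Fintype.card_fin, hn]
    push_cast; rfl
  set a : (Fin T → α) → Bool × Fin T → Bool × Fin T → Prop := fun z p q =>
    p.2 ≠ q.2 ∧ N (p.1, z p.2) (q.1, z q.2) with ha
  set Bad := Φ.filter (fun z => ∃ q : Fin 4 → Bool × Fin T, ∀ g g', g ≠ g' →
      (q g).2 ≠ (q g').2 ∧ N ((q g).1, z (q g).2) ((q g').1, z (q g').2)) with hBad
  set Gd := Φ.filter (fun z => ¬ ∃ q : Fin 4 → Bool × Fin T, ∀ g g', g ≠ g' →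
      (q g).2 ≠ (q g').2 ∧ N ((q g).1, z (q g).2) ((q g').1, z (q g').2)) with hGd
  have hGdc : (1 - ε / 4) * n ^ T ≤ (Gd.card : ℝ) := by
    have h1 := Finset.card_filter_add_card_filter_not (s := Φ) (fun z => ∃ q : Fin 4 → Bool × Fin T,
      ∀ g g', g ≠ g' → (q g).2 ≠ (q g').2 ∧ N ((q g).1, z (q g).2) ((q g').1, z (q g').2))
    have h2 : (Bad.card : ℝ) + Gd.card = n ^ T := by
      rw [← hΦc]; exact_mod_cast h1
    linarith
  set dd : (Fin T → α) → ℕ := fun z => cnt (fun i j : Fin T =>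
    ¬ (a z (true, i) (true, j) ∧ a z (false, i) (false, j))) with hdd
  set gg : (Fin T → α) → ℕ := fun z => cnt (fun i j : Fin T => ¬ a z (true, i) (false, j)) with hgg
  have htwo : ∀ z ∈ Gd, (T : ℝ) ≤ Real.sqrt (dd z) + Real.sqrt (gg z) ∧
      2 * (T : ℝ) ^ 2 ≤ 3 * ((dd z : ℝ) + gg z) := by
    intro z hz
    have h1 := (mem_filter.1 hz).2
    have h2 := two_copies (a z) (fun p q h => ⟨fun h' => h.1 h'.symm, hsym _ _ h.2⟩)
      (fun b b' i h => h.1 rfl) (fun q hq => h1 ⟨q, fun g g' hgg => hq g g' hgg⟩)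
    rw [Fintype.card_fin] at h2
    exact h2
  set D : ℝ := (ec V (fun u v => ¬ (N (true, u) (true, v) ∧ N (false, u) (false, v))) : ℝ) with hD
  set G : ℝ := (ec V (fun u v => ¬ N (true, u) (false, v)) : ℝ) with hG
  have hD0 : 0 ≤ D := Nat.cast_nonneg _
  have hG0 : 0 ≤ G := Nat.cast_nonneg _
  have hnT : n ^ T = n ^ 2 * n ^ (T - 2) := by
    rw [← pow_add]; congr 1; omega
  have hnT0 : 0 < n ^ T := by positivity
  have havg : ∀ (p : α → α → Prop) (Q : (Fin T → α) → Fin T → Fin T → Prop),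
      (∀ z i j, Q z i j → i = j ∨ p (z i) (z j)) →
      ∑ z ∈ Φ, (cnt (Q z) : ℝ) ≤ Φ.card * ((T : ℝ) ^ 2 * (1 / T + (ec V p : ℝ) / n ^ 2)) := by
    intro p Q hQ
    have h1 := (Nat.cast_le (α := ℝ)).2 (avg V p Q hQ)
    push_cast at h1
    refine h1.trans (le_of_eq ?_)
    rw [hΦc, ← hn, hnT]
    field_simp
  have hSd := havg (fun u v => ¬ (N (true, u) (true, v) ∧ N (false, u) (false, v)))
    (fun z i j => ¬ (a z (true, i) (true, j) ∧ a z (false, i) (false, j))) (by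
      intro z i j h
      by_cases hij : i = j
      · exact Or.inl hij
      · exact Or.inr (fun h' => h ⟨⟨hij, h'.1⟩, ⟨hij, h'.2⟩⟩))
  have hSg := havg (fun u v => ¬ N (true, u) (false, v)) (fun z i j => ¬ a z (true, i) (false, j)) (by
      intro z i j h
      by_cases hij : i = j
      · exact Or.inl hij
      · exact Or.inr (fun h' => h ⟨hij, h'⟩))
  rw [← hD] at hSd
  rw [← hG] at hSg
  have hTn : (1 / (T : ℝ)) ≤ ε / 64 := by
    have h1 : (ε / 8) ^ 2 ≤ ε / 64 := by nlinarith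
    exact hTi.trans h1
  constructor
  · have h1 : (Gd.card : ℝ) * T ≤ ∑ z ∈ Φ, (Real.sqrt (dd z) + Real.sqrt (gg z)) := by
      rw [← nsmul_eq_mul]
      refine (Finset.card_nsmul_le_sum Gd _ _ (fun z hz => (htwo z hz).1)).trans ?_
      exact Finset.sum_le_sum_of_subset_of_nonneg (filter_subset _ _)
        (fun _ _ _ => add_nonneg (Real.sqrt_nonneg _) (Real.sqrt_nonneg _))
    rw [sum_add_distrib] at h1
    have h2 := sum_sqrt_le Φ dd _ hSd (by positivity)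
    have h3 := sum_sqrt_le Φ gg _ hSg (by positivity)
    have hs : ∀ x : ℝ, 0 ≤ x → Real.sqrt ((T : ℝ) ^ 2 * (1 / T + x)) ≤ T * (ε / 8 + Real.sqrt x) := by
      intro x hx
      rw [Real.sqrt_mul (by positivity), Real.sqrt_sq hT0.le]
      apply mul_le_mul_of_nonneg_left _ hT0.le
      rw [Real.sqrt_le_iff]
      have hx1 := Real.sq_sqrt hx
      have hx2 := Real.sqrt_nonneg x
      refine ⟨by positivity, ?_⟩
      nlinarith [mul_nonneg hε.le hx2]
    have h4 := hs (D / n ^ 2) (by positivity)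
    have h5 := hs (G / n ^ 2) (by positivity)
    have h6 : (1 - ε / 4) * n ^ T * T ≤ n ^ T * (T * (ε / 8 + Real.sqrt (D / n ^ 2))) +
        n ^ T * (T * (ε / 8 + Real.sqrt (G / n ^ 2))) := by
      calc (1 - ε / 4) * n ^ T * T ≤ Gd.card * T := mul_le_mul_of_nonneg_right hGdc hT0.le
        _ ≤ _ := h1
        _ ≤ _ := add_le_add (h2.trans (by rw [hΦc]; exact mul_le_mul_of_nonneg_left h4 hnT0.le))
            (h3.trans (by rw [hΦc]; exact mul_le_mul_of_nonneg_left h5 hnT0.le))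
    have h7 : (n ^ T * T) * (1 - ε / 4) ≤ (n ^ T * T) * (ε / 4 + Real.sqrt (D / n ^ 2) + Real.sqrt (G / n ^ 2)) := by
      calc (n ^ T * T) * (1 - ε / 4) = (1 - ε / 4) * n ^ T * T := by ring
        _ ≤ _ := h6
        _ = _ := by ring
    have h8 := le_of_mul_le_mul_left h7 (by positivity)
    linarith
  · have h1 : (Gd.card : ℝ) * (2 * (T : ℝ) ^ 2) ≤ ∑ z ∈ Φ, (3 * ((dd z : ℝ) + gg z)) := by
      rw [← nsmul_eq_mul]
      refine (Finset.card_nsmul_le_sum Gd _ _ (fun z hz => (htwo z hz).2)).trans ?_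
      exact Finset.sum_le_sum_of_subset_of_nonneg (filter_subset _ _) (fun _ _ _ => by positivity)
    rw [← mul_sum, sum_add_distrib] at h1
    rw [hΦc] at hSd hSg
    have h2 : (n ^ T * (T : ℝ) ^ 2) * (2 * (1 - ε / 4)) ≤
        (n ^ T * (T : ℝ) ^ 2) * (3 * (2 / T + D / n ^ 2 + G / n ^ 2)) := by
      calc (n ^ T * (T : ℝ) ^ 2) * (2 * (1 - ε / 4)) = (1 - ε / 4) * n ^ T * (2 * (T : ℝ) ^ 2) := by ring
        _ ≤ Gd.card * (2 * (T : ℝ) ^ 2) := mul_le_mul_of_nonneg_right hGdc (by positivity)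
        _ ≤ _ := h1
        _ ≤ 3 * (n ^ T * ((T : ℝ) ^ 2 * (1 / T + D / n ^ 2)) + n ^ T * ((T : ℝ) ^ 2 * (1 / T + G / n ^ 2))) := by
            linarith
        _ = _ := by ring
    have h3 := le_of_mul_le_mul_left h2 (by positivity)
    have h4 : 2 / (T : ℝ) = 2 * (1 / T) := by ring
    rw [h4] at h3
    linarith

end Pool.Agent.H35_SD
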