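import Mathlib
import Pool.Agent.H35_SD.Comb
import Pool.Agent.Y827.RO.NarF

set_option autoImplicit false

/-!
Sums and differences of primes at every scale: the inequality for the proportions.
-/

namespace Pool.Agent.H35_SD

open Finset Filter
open Pool.Agent.Y827.GS (Adf cntN cntN_anti)

/-- the number of the primes `p ≤ 2 E` for which `p + v - u` is prime -/
noncomputable def dc (E u v : ℕ) : ℕ := {p : ℕ | p ≤ 2 * E ∧ p.Prime ∧ ∃ q : ℕ, q.Prime ∧ p + v = q + u}.ncard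

/-- the number of the representations of `m` as a sum of two primes -/
noncomputable def sc (m : ℕ) : ℕ := {p : ℕ | p.Prime ∧ ∃ q : ℕ, q.Prime ∧ p + q = m}.ncard

/-- the two families of linear forms -/
def F (E : ℕ) (p : Bool × ℕ) : ℤ × ℤ := if p.1 = true then (1, (p.2 : ℤ)) else (-1, (E : ℤ) + p.2)

theorem F_inj {E : ℕ} {b : Bool} {u v : ℕ} (h : F E (b, u) = F E (b, v)) : u = v := by
  unfold F at h
  cases b
  · simp only [Bool.false_eq_true, if_false, Prod.mk.injEq] at h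
    omega
  · simp only [if_true, Prod.mk.injEq] at h
    omega

theorem F_adf {E : ℕ} (hE : 100 ≤ E) {b : Bool} {v : ℕ} (hv : 10 * v ≤ E) : Adf 1 (E + E / 10) (F E (b, v)) := by
  have hN : E + E / 10 ≤ 2 * E := by omega
  have h10 : 10 * (E / 10) ≤ E := Nat.mul_div_le E 10
  have h10r : 10 * ((E / 10 : ℕ) : ℝ) ≤ E := by exact_mod_cast h10
  have hEr : (100 : ℝ) ≤ E := by exact_mod_cast hE
  have hvr : (0 : ℝ) ≤ v := Nat.cast_nonneg v
  unfold F
  cases b
  · simp only [Bool.false_eq_true, if_false]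
    refine ⟨by norm_num, by norm_num, ?_, ?_, ?_⟩
    · rw [abs_of_nonneg (by positivity)]
      push_cast
      omega
    · exact (isCoprime_one_left).neg_left
    · intro t ht1 ht2
      push_cast at ht1 ht2 ⊢
      linarith
  · simp only [if_true]
    refine ⟨by norm_num, by norm_num, ?_, isCoprime_one_left, ?_⟩
    · rw [abs_of_nonneg (by positivity)]
      push_cast
      omega
    · intro t ht1 ht2
      push_cast at ht1 ht2 ⊢
      linarith

theorem loc {E p : ℕ} (hE : Even E) (hp : p.Prime) :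
    ∃ r : ℤ, ¬ (p : ℤ) ∣ r ∧ ¬ (p : ℤ) ∣ (E : ℤ) - r := by
  by_cases h : (p : ℤ) ∣ (E : ℤ) - 1
  · refine ⟨2, ?_, ?_⟩
    · intro h2
      have h3 : p ∣ 2 := by exact_mod_cast h2
      have h4 : p = 2 := (Nat.prime_dvd_prime_iff_eq hp Nat.prime_two).1 h3
      subst h4
      obtain ⟨k, hk⟩ := hE
      obtain ⟨l, hl⟩ := h
      push_cast at hl
      omega
    · intro h2
      have h3 : (p : ℤ) ∣ 1 := by
        have := dvd_sub h h2
        have e : (E : ℤ) - 1 - ((E : ℤ) - 2) = 1 := by ring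
        rwa [e] at this
      have h4 : p ∣ 1 := by exact_mod_cast h3
      exact hp.one_lt.ne' (Nat.dvd_one.1 h4)
  · refine ⟨1, ?_, h⟩
    intro h2
    have h4 : p ∣ 1 := by exact_mod_cast h2
    exact hp.one_lt.ne' (Nat.dvd_one.1 h4)

theorem F_loc {E p : ℕ} {r : ℤ} (h1 : ¬ (p : ℤ) ∣ r) (h2 : ¬ (p : ℤ) ∣ (E : ℤ) - r) {b : Bool} {v : ℕ}
    (hv : p ∣ v) : ¬ (p : ℤ) ∣ (F E (b, v)).1 * r + (F E (b, v)).2 := by
  have hv' : (p : ℤ) ∣ (v : ℤ) := by exact_mod_cast hv
  unfold F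
  cases b
  · simp only [Bool.false_eq_true, if_false]
    intro h
    apply h2
    have e : (E : ℤ) - r = (-1 * r + (E + v)) - v := by ring
    rw [e]
    exact dvd_sub h hv'
  · simp only [if_true]
    intro h
    apply h1
    have e : r = (1 * r + v) - v := by ring
    rw [e]
    exact dvd_sub h hv'

/-- the counts -/
theorem cnt_tt {E u v : ℕ} (hu : 10 * u ≤ E) :
    cntN {F E (true, u), F E (true, v)} (E + E / 10) ≤ dc E u v := by
  unfold cntN dc
  rw [← Set.ncard_coe_finset]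
  have hfin : {p : ℕ | p ≤ 2 * E ∧ p.Prime ∧ ∃ q : ℕ, q.Prime ∧ p + v = q + u}.Finite :=
    (Set.finite_Iic (2 * E)).subset fun p hp => hp.1
  refine Set.ncard_le_ncard_of_injOn (fun n => n + u) ?_ ?_ hfin
  · intro n hn
    rw [mem_coe, mem_filter, mem_Icc] at hn
    obtain ⟨⟨hn1, hn2⟩, hn3⟩ := hn
    have h1 := hn3 _ (mem_insert_self _ _)
    have h2 := hn3 _ (mem_insert_of_mem (mem_singleton_self _))
    unfold F at h1 h2
    simp only [if_true] at h1 h2
    have e1 : (1 * (n : ℤ) + u).toNat = n + u := by omega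
    have e2 : (1 * (n : ℤ) + v).toNat = n + v := by omega
    rw [e1] at h1
    rw [e2] at h2
    exact ⟨by show n + u ≤ 2 * E; omega, h1, n + v, h2, by omega⟩
  · intro n _ m _ h
    simp only at h
    omega

theorem cnt_ff {E u v : ℕ} (hu : 10 * u ≤ E) :
    cntN {F E (false, u), F E (false, v)} (E + E / 10) ≤ dc E u v := by
  unfold cntN dc
  rw [← Set.ncard_coe_finset]
  have hfin : {p : ℕ | p ≤ 2 * E ∧ p.Prime ∧ ∃ q : ℕ, q.Prime ∧ p + v = q + u}.Finite :=
    (Set.finite_Iic (2 * E)).subset fun p hp => hp.1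
  have hpos : ∀ n ∈ ((Icc 1 (E + E / 10)).filter (fun n : ℕ => ∀ f ∈ ({F E (false, u), F E (false, v)} :
      Finset (ℤ × ℤ)), (f.1 * (n : ℤ) + f.2).toNat.Prime)),
      ((E + u : ℤ) - n).toNat.Prime ∧ ((E + v : ℤ) - n).toNat.Prime := by
    intro n hn
    rw [mem_filter, mem_Icc] at hn
    obtain ⟨⟨hn1, hn2⟩, hn3⟩ := hn
    have h1 := hn3 _ (mem_insert_self _ _)
    have h2 := hn3 _ (mem_insert_of_mem (mem_singleton_self _))
    unfold F at h1 h2
    simp only [Bool.false_eq_true, if_false] at h1 h2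
    have e1 : (-1 * (n : ℤ) + (E + u)) = (E + u : ℤ) - n := by ring
    have e2 : (-1 * (n : ℤ) + (E + v)) = (E + v : ℤ) - n := by ring
    rw [e1] at h1
    rw [e2] at h2
    exact ⟨h1, h2⟩
  refine Set.ncard_le_ncard_of_injOn (fun n => ((E + u : ℤ) - n).toNat) ?_ ?_ hfin
  · intro n hn
    obtain ⟨h1, h2⟩ := hpos n (mem_coe.1 hn)
    have h3 := h1.pos
    have h4 := h2.pos
    exact ⟨by show ((E + u : ℤ) - n).toNat ≤ 2 * E; omega, h1, ((E + v : ℤ) - n).toNat, h2, by
      show ((E + u : ℤ) - n).toNat + v = ((E + v : ℤ) - n).toNat + u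
      omega⟩
  · intro n hn m hm h
    have h3 := (hpos n (mem_coe.1 hn)).1.pos
    have h4 := (hpos m (mem_coe.1 hm)).1.pos
    simp only at h
    omega

theorem cnt_tf {E u v : ℕ} :
    cntN {F E (true, u), F E (false, v)} (E + E / 10) ≤ sc (E + u + v) := by
  unfold cntN sc
  rw [← Set.ncard_coe_finset]
  have hfin : {p : ℕ | p.Prime ∧ ∃ q : ℕ, q.Prime ∧ p + q = E + u + v}.Finite :=
    (Set.finite_Iic (E + u + v)).subset fun p hp => by
      obtain ⟨_, q, _, hq⟩ := hp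
      exact Set.mem_Iic.2 (by omega)
  refine Set.ncard_le_ncard_of_injOn (fun n => n + u) ?_ ?_ hfin
  · intro n hn
    rw [mem_coe, mem_filter, mem_Icc] at hn
    obtain ⟨⟨hn1, hn2⟩, hn3⟩ := hn
    have h1 := hn3 _ (mem_insert_self _ _)
    have h2 := hn3 _ (mem_insert_of_mem (mem_singleton_self _))
    unfold F at h1 h2
    simp only [Bool.false_eq_true, if_true, if_false] at h1 h2
    have e1 : (1 * (n : ℤ) + u).toNat = n + u := by omega
    have e2 : (-1 * (n : ℤ) + (E + v)) = (E + v : ℤ) - n := by ring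
    rw [e1] at h1
    rw [e2] at h2
    have h4 := h2.pos
    exact ⟨h1, ((E + v : ℤ) - n).toNat, h2, by
      show n + u + ((E + v : ℤ) - n).toNat = E + u + v
      omega⟩
  · intro n _ m _ h
    simp only at h
    omega

/-- the size of the counts -/
theorem size (C : ℕ) : ∀ᶠ E : ℕ in atTop, (E : ℝ) / Real.log E ^ (C + 1) ≤
    ((E + E / 10 : ℕ) : ℝ) / Real.log ((E + E / 10 : ℕ) : ℝ) ^ C := by
  have hlog := (Real.tendsto_log_atTop.comp tendsto_natCast_atTop_atTop).eventually_ge_atTop ((2 : ℝ) ^ C + 1)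
  filter_upwards [hlog, eventually_ge_atTop 100] with E hE hE100
  simp only [Function.comp] at hE
  have hE1 : (100 : ℝ) ≤ E := by exact_mod_cast hE100
  have hL1 : (1 : ℝ) ≤ Real.log E := by
    have : (0 : ℝ) < (2 : ℝ) ^ C := by positivity
    linarith
  have hN1 : (E : ℝ) ≤ ((E + E / 10 : ℕ) : ℝ) := by exact_mod_cast Nat.le_add_right _ _
  have hN2 : ((E + E / 10 : ℕ) : ℝ) ≤ (E : ℝ) ^ 2 := by
    have h1 : E + E / 10 ≤ E ^ 2 := by
      have : E / 10 ≤ E := Nat.div_le_self _ _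
      nlinarith
    exact_mod_cast h1
  have hlN : Real.log ((E + E / 10 : ℕ) : ℝ) ≤ 2 * Real.log E := by
    have h1 := Real.log_le_log (by linarith) hN2
    rw [Real.log_pow] at h1
    push_cast at h1 ⊢
    linarith
  have hlN1 : (1 : ℝ) ≤ Real.log ((E + E / 10 : ℕ) : ℝ) := hL1.trans (Real.log_le_log (by linarith) hN1)
  rw [div_le_div_iff₀ (by positivity) (by positivity)]
  have h3 : Real.log ((E + E / 10 : ℕ) : ℝ) ^ C ≤ Real.log E ^ (C + 1) := by
    calc Real.log ((E + E / 10 : ℕ) : ℝ) ^ C ≤ (2 * Real.log E) ^ C :=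
          pow_le_pow_left₀ (by linarith) hlN C
      _ = 2 ^ C * Real.log E ^ C := mul_pow _ _ _
      _ ≤ Real.log E * Real.log E ^ C := mul_le_mul_of_nonneg_right (by linarith) (by positivity)
      _ = Real.log E ^ (C + 1) := by ring
  exact mul_le_mul hN1 h3 (by positivity) (by positivity)

open Classical in
/-- the proportion of the differences -/
noncomputable def dd (C E : ℕ) (V : Finset ℕ) : ℝ :=
  (((V ×ˢ V).filter (fun q => q.1 = q.2 ∨ (E : ℝ) / Real.log E ^ C ≤ (dc E q.1 q.2 : ℝ))).card : ℝ) / (V.card : ℝ) ^ 2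

open Classical in
/-- the proportion of the sums -/
noncomputable def ss (C E : ℕ) (V : Finset ℕ) : ℝ :=
  (((V ×ˢ V).filter (fun q => (E : ℝ) / Real.log E ^ C ≤ (sc (E + q.1 + q.2) : ℝ))).card : ℝ) / (V.card : ℝ) ^ 2

theorem main : ∃ W C E₀ : ℕ, 1 ≤ W ∧ ∀ ε : ℝ, 0 < ε → ∃ n₀ : ℕ, ∀ E : ℕ, E₀ ≤ E → Even E →
    ∀ V : Finset ℕ, n₀ ≤ V.card → (∀ v ∈ V, W ∣ v ∧ 10 * v ≤ E) →
    1 - ε ≤ Real.sqrt (dd C E V) + Real.sqrt (ss C E V) ∧ 2 / 3 - ε ≤ dd C E V + ss C E V := by
  classical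
  obtain ⟨K, hK1, hK⟩ := Pool.Agent.Y827.RO.lamRD 4
  have hK := hK (by norm_num) 1
  set C : ℕ := 4 * K + 2 with hC
  have hten : Tendsto (fun E : ℕ => E + E / 10) atTop atTop :=
    tendsto_atTop_mono (fun E => Nat.le_add_right E (E / 10)) tendsto_id
  obtain ⟨E₀, hE₀⟩ := eventually_atTop.1 ((hten.eventually hK).and ((size C).and (eventually_ge_atTop 100)))
  refine ⟨(4 * K).factorial, C + 1, E₀, Nat.factorial_pos _, fun ε hε => ?_⟩
  obtain ⟨n₀, hn₀⟩ := comb K ε hε
  refine ⟨n₀, fun E hE hEven V hV hVW => ?_⟩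
  obtain ⟨hKE, hsize, hE100⟩ := hE₀ E hE
  set N : ℕ := E + E / 10 with hN
  set R : ℤ × ℤ → ℤ × ℤ → Prop := fun f g => (N : ℝ) / Real.log N ^ C ≤ (cntN {f, g} N : ℝ) with hR
  set Nr : Bool × ℕ → Bool × ℕ → Prop := fun p q => F E p ≠ F E q ∧ ¬ R (F E p) (F E q) with hNr
  have hsym : ∀ p q, Nr p q → Nr q p := by
    rintro p q ⟨h1, h2⟩
    refine ⟨fun h => h1 h.symm, ?_⟩
    rw [hR] at h2 ⊢
    simp only at h2 ⊢
    rw [Finset.pair_comm]
    exact h2
  have hbox : ∀ (s : Fin 4 → Bool) (A : Fin 4 → Fin K → ℕ), (∀ g i, A g i ∈ V) →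
      (∀ g, Function.Injective (A g)) → ¬ ∀ g g', g ≠ g' → ∀ i i', Nr (s g, A g i) (s g', A g' i') := by
    intro s A hAV hAinj hcon
    obtain ⟨S, c, hS, hcnt⟩ := hKE (fun g i => F E (s g, A g i)) (by
      rintro ⟨g, i⟩ ⟨g', i'⟩ h
      simp only at h
      by_cases hgg : g = g'
      · subst hgg
        rw [hAinj g (F_inj h)]
      · exact absurd h (hcon g g' hgg i i').1) (fun g i => F_adf hE100 (hVW _ (hAV g i)).2) (by
      intro p hp hpK
      obtain ⟨r, h1, h2⟩ := loc hEven hp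
      exact ⟨r, fun g i => F_loc h1 h2 (((Nat.Prime.dvd_factorial hp).2 hpK).trans (hVW _ (hAV g i)).1)⟩)
    have hS2 : 1 < S.card := by
      by_contra h
      have h1 : (S.card : ℝ) ≤ 1 := by exact_mod_cast (not_lt.1 h)
      push_cast at hS
      linarith
    obtain ⟨g, hg, g', hg', hgg⟩ := one_lt_card.1 hS2
    apply (hcon g g' hgg (c g) (c g')).2
    rw [hR]
    refine hcnt.trans ?_
    have h1 : ({F E (s g, A g (c g)), F E (s g', A g' (c g'))} : Finset (ℤ × ℤ)) ⊆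
        S.image (fun g => F E (s g, A g (c g))) := by
      intro f hf
      rw [mem_insert, mem_singleton] at hf
      rcases hf with rfl | rfl
      · exact mem_image.2 ⟨g, hg, rfl⟩
      · exact mem_image.2 ⟨g', hg', rfl⟩
    exact_mod_cast cntN_anti h1 N
  obtain ⟨h1, h2⟩ := hn₀ ℕ V Nr hV hsym hbox
  have hd : (ec V (fun u v => ¬ (Nr (true, u) (true, v) ∧ Nr (false, u) (false, v))) : ℝ) / (V.card : ℝ) ^ 2 ≤
      dd (C + 1) E V := by
    unfold dd ec
    apply div_le_div_of_nonneg_right _ (by positivity)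
    apply Nat.cast_le.2
    apply card_le_card
    intro q hq
    simp only [mem_filter] at hq ⊢
    refine ⟨hq.1, ?_⟩
    obtain ⟨hq1, hq2⟩ := mem_product.1 hq.1
    by_cases hne : q.1 = q.2
    · exact Or.inl hne
    right
    by_cases h3 : R (F E (true, q.1)) (F E (true, q.2))
    · rw [hR] at h3
      exact hsize.trans (h3.trans (Nat.cast_le.2 (cnt_tt (hVW _ hq1).2)))
    · by_cases h4 : R (F E (false, q.1)) (F E (false, q.2))
      · rw [hR] at h4
        exact hsize.trans (h4.trans (Nat.cast_le.2 (cnt_ff (hVW _ hq1).2)))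
      · exact absurd ⟨⟨fun h => hne (F_inj h), h3⟩, ⟨fun h => hne (F_inj h), h4⟩⟩ hq.2
  have hg : (ec V (fun u v => ¬ Nr (true, u) (false, v)) : ℝ) / (V.card : ℝ) ^ 2 ≤ ss (C + 1) E V := by
    unfold ss ec
    apply div_le_div_of_nonneg_right _ (by positivity)
    apply Nat.cast_le.2
    apply card_le_card
    intro q hq
    simp only [mem_filter] at hq ⊢
    refine ⟨hq.1, ?_⟩
    by_cases h3 : R (F E (true, q.1)) (F E (false, q.2))
    · rw [hR] at h3
      exact hsize.trans (h3.trans (Nat.cast_le.2 cnt_tf))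
    · refine absurd ⟨?_, h3⟩ hq.2
      unfold F
      simp
  exact ⟨h1.trans (add_le_add (Real.sqrt_le_sqrt hd) (Real.sqrt_le_sqrt hg)), h2.trans (add_le_add hd hg)⟩

end Pool.Agent.H35_SD
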