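import Mathlib
import Pool.Agent.H35_SD.Ar

set_option autoImplicit false

/-!
The totient form.
-/

namespace Pool.Agent.H35_SD

open Finset Filter

/-- `x` is an integral solution of the system `φ(n - x) + 1 = n - x`, `φ(n + x) + 1 = n + x`. -/
def Sol (n : ℕ) (x : ℤ) : Prop :=
  1 ≤ (n : ℤ) - x ∧ 1 ≤ (n : ℤ) + x ∧ (Nat.totient ((n : ℤ) - x).toNat : ℤ) + 1 = (n : ℤ) - x ∧
    (Nat.totient ((n : ℤ) + x).toNat : ℤ) + 1 = (n : ℤ) + x

theorem sol_finite (n : ℕ) : {x : ℤ | Sol n x}.Finite := by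
  apply (Set.finite_Icc (-(n : ℤ)) n).subset
  rintro x ⟨h1, h2, -, -⟩
  exact ⟨by linarith, by linarith⟩

theorem sc_le (n : ℕ) : sc (2 * n) ≤ {x : ℤ | Sol n x}.ncard := by
  unfold sc
  refine Set.ncard_le_ncard_of_injOn (fun p : ℕ => (n : ℤ) - p) ?_ ?_ (sol_finite n)
  · rintro p ⟨hp, q, hq, hpq⟩
    have hq2 : (n : ℤ) + (n - p) = q := by omega
    have hp2 : (n : ℤ) - (n - p) = p := by ring
    have ht : ∀ r : ℕ, r.Prime → ((Nat.totient r : ℕ) : ℤ) + 1 = r := by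
      intro r hr
      have h1 := Nat.totient_prime hr
      have h2 := hr.one_lt
      rw [h1]
      omega
    show Sol n ((n : ℤ) - p)
    refine ⟨?_, ?_, ?_, ?_⟩
    · rw [hp2]; exact_mod_cast hp.one_le
    · rw [hq2]; exact_mod_cast hq.one_le
    · rw [hp2, Int.toNat_natCast]; exact ht p hp
    · rw [hq2, Int.toNat_natCast]; exact ht q hq
  · intro p _ q _ h
    simp only at h
    omega

/-- the number of the primes `p ≤ 4 M` for which `p + 2 (v - u)` is prime -/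
noncomputable def dt (M u v : ℕ) : ℕ :=
  {p : ℕ | p ≤ 4 * M ∧ p.Prime ∧ ∃ q : ℕ, q.Prime ∧ p + 2 * v = q + 2 * u}.ncard

open Classical in
/-- the proportion of the differences -/
noncomputable def ddt (C M : ℕ) (V : Finset ℕ) : ℝ :=
  (((V ×ˢ V).filter (fun q => q.1 = q.2 ∨ (M : ℝ) / Real.log M ^ C ≤ (dt M q.1 q.2 : ℝ))).card : ℝ) /
    (V.card : ℝ) ^ 2

open Classical in
/-- the proportion of the sums -/
noncomputable def sst (C M : ℕ) (V : Finset ℕ) : ℝ :=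
  (((V ×ˢ V).filter (fun q => (M : ℝ) / Real.log M ^ C ≤
    (({x : ℤ | Sol (M + q.1 + q.2) x}.ncard : ℕ) : ℝ))).card : ℝ) / (V.card : ℝ) ^ 2

theorem size2 (C : ℕ) : ∀ᶠ M : ℕ in atTop, (M : ℝ) / Real.log M ^ (C + 1) ≤
    ((2 * M : ℕ) : ℝ) / Real.log ((2 * M : ℕ) : ℝ) ^ C := by
  have hlog := (Real.tendsto_log_atTop.comp tendsto_natCast_atTop_atTop).eventually_ge_atTop ((2 : ℝ) ^ C + 1)
  filter_upwards [hlog, eventually_ge_atTop 100] with E hE hE100
  simp only [Function.comp] at hE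
  have hE1 : (100 : ℝ) ≤ E := by exact_mod_cast hE100
  have hL1 : (1 : ℝ) ≤ Real.log E := by
    have : (0 : ℝ) < (2 : ℝ) ^ C := by positivity
    linarith
  have hN1 : (E : ℝ) ≤ ((2 * E : ℕ) : ℝ) := by exact_mod_cast (by omega : E ≤ 2 * E)
  have hN2 : ((2 * E : ℕ) : ℝ) ≤ (E : ℝ) ^ 2 := by
    have h1 : 2 * E ≤ E ^ 2 := by nlinarith
    exact_mod_cast h1
  have hlN : Real.log ((2 * E : ℕ) : ℝ) ≤ 2 * Real.log E := by
    have h1 := Real.log_le_log (by linarith) hN2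
    rw [Real.log_pow] at h1
    push_cast at h1 ⊢
    linarith
  have hlN1 : (1 : ℝ) ≤ Real.log ((2 * E : ℕ) : ℝ) := hL1.trans (Real.log_le_log (by linarith) hN1)
  rw [div_le_div_iff₀ (by positivity) (by positivity)]
  have h3 : Real.log ((2 * E : ℕ) : ℝ) ^ C ≤ Real.log E ^ (C + 1) := by
    calc Real.log ((2 * E : ℕ) : ℝ) ^ C ≤ (2 * Real.log E) ^ C :=
          pow_le_pow_left₀ (by linarith) hlN C
      _ = 2 ^ C * Real.log E ^ C := mul_pow _ _ _
      _ ≤ Real.log E * Real.log E ^ C := mul_le_mul_of_nonneg_right (by linarith) (by positivity)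
      _ = Real.log E ^ (C + 1) := by ring
  exact mul_le_mul hN1 h3 (by positivity) (by positivity)

theorem main_tot : ∃ W C M₀ : ℕ, 1 ≤ W ∧ ∀ ε : ℝ, 0 < ε → ∃ n₀ : ℕ, ∀ M : ℕ, M₀ ≤ M →
    ∀ V : Finset ℕ, n₀ ≤ V.card → (∀ v ∈ V, W ∣ v ∧ 10 * v ≤ M) →
    1 - ε ≤ Real.sqrt (ddt C M V) + Real.sqrt (sst C M V) ∧ 2 / 3 - ε ≤ ddt C M V + sst C M V := by
  classical
  obtain ⟨W, C, E₀, hW, h⟩ := main
  obtain ⟨M₁, hM₁⟩ := eventually_atTop.1 (size2 C)
  refine ⟨W, C + 1, max E₀ M₁, hW, fun ε hε => ?_⟩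
  obtain ⟨n₀, hn₀⟩ := h ε hε
  refine ⟨n₀, fun M hM V hV hVW => ?_⟩
  have hME : E₀ ≤ M := (le_max_left _ _).trans hM
  have hsize := hM₁ M ((le_max_right _ _).trans hM)
  set V' : Finset ℕ := V.image (fun v => 2 * v) with hV'
  have hcard : V'.card = V.card := card_image_of_injective _ (fun a b hab => by simpa using hab)
  obtain ⟨h1, h2⟩ := hn₀ (2 * M) (by omega) (even_two_mul M) V' (by rw [hcard]; exact hV) (by
    intro v hv
    obtain ⟨w, hw, rfl⟩ := mem_image.1 hv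
    exact ⟨(hVW w hw).1.mul_left 2, by have := (hVW w hw).2; omega⟩)
  have hd : dd C (2 * M) V' ≤ ddt (C + 1) M V := by
    unfold dd ddt
    rw [hcard]
    apply div_le_div_of_nonneg_right _ (by positivity)
    apply Nat.cast_le.2
    refine card_le_card_of_injOn (fun q => (q.1 / 2, q.2 / 2)) ?_ ?_
    · rintro ⟨u', v'⟩ hq
      simp only [coe_filter, mem_product, Set.mem_ofPred_eq] at hq
      obtain ⟨⟨hu, hv⟩, hq⟩ := hq
      obtain ⟨u, hu2, rfl⟩ := mem_image.1 hu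
      obtain ⟨v, hv2, rfl⟩ := mem_image.1 hv
      simp only [coe_filter, mem_product, Set.mem_ofPred_eq, Nat.mul_div_cancel_left _ (by norm_num : 0 < 2)]
      refine ⟨⟨hu2, hv2⟩, ?_⟩
      rcases hq with hq | hq
      · exact Or.inl (by omega)
      · refine Or.inr (hsize.trans (hq.trans (le_of_eq ?_)))
        unfold dc dt
        have e : 2 * (2 * M) = 4 * M := by ring
        rw [e]
    · rintro ⟨u', v'⟩ hq ⟨u'', v''⟩ hq' hqq
      simp only [coe_filter, mem_product, Set.mem_ofPred_eq] at hq hq'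
      obtain ⟨a, _, ha⟩ := mem_image.1 hq.1.1
      obtain ⟨b, _, hb⟩ := mem_image.1 hq.1.2
      obtain ⟨a', _, ha'⟩ := mem_image.1 hq'.1.1
      obtain ⟨b', _, hb'⟩ := mem_image.1 hq'.1.2
      simp only [Prod.mk.injEq] at hqq ⊢
      omega
  have hg : ss C (2 * M) V' ≤ sst (C + 1) M V := by
    unfold ss sst
    rw [hcard]
    apply div_le_div_of_nonneg_right _ (by positivity)
    apply Nat.cast_le.2
    refine card_le_card_of_injOn (fun q => (q.1 / 2, q.2 / 2)) ?_ ?_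
    · rintro ⟨u', v'⟩ hq
      simp only [coe_filter, mem_product, Set.mem_ofPred_eq] at hq
      obtain ⟨⟨hu, hv⟩, hq⟩ := hq
      obtain ⟨u, hu2, rfl⟩ := mem_image.1 hu
      obtain ⟨v, hv2, rfl⟩ := mem_image.1 hv
      simp only [coe_filter, mem_product, Set.mem_ofPred_eq, Nat.mul_div_cancel_left _ (by norm_num : 0 < 2)]
      refine ⟨⟨hu2, hv2⟩, hsize.trans (hq.trans (Nat.cast_le.2 ?_))⟩
      have e : 2 * M + 2 * u + 2 * v = 2 * (M + u + v) := by ring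
      rw [e]
      exact sc_le _
    · rintro ⟨u', v'⟩ hq ⟨u'', v''⟩ hq' hqq
      simp only [coe_filter, mem_product, Set.mem_ofPred_eq] at hq hq'
      obtain ⟨a, _, ha⟩ := mem_image.1 hq.1.1
      obtain ⟨b, _, hb⟩ := mem_image.1 hq.1.2
      obtain ⟨a', _, ha'⟩ := mem_image.1 hq'.1.1
      obtain ⟨b', _, hb'⟩ := mem_image.1 hq'.1.2
      simp only [Prod.mk.injEq] at hqq ⊢
      omega
  exact ⟨h1.trans (add_le_add (Real.sqrt_le_sqrt hd) (Real.sqrt_le_sqrt hg)), h2.trans (add_le_add hd hg)⟩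

end Pool.Agent.H35_SD
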